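import Pool.Agent.K1H2.BI.Stm

/-!
# Project BI, pieces MEAS and AGG: measurability
-/

set_option autoImplicit false

namespace Pool.Agent.K1H8.BI

open MeasureTheory ProbabilityTheory Filter
open Pool.Agent.K1H2.BI

universe u

instance : DiscreteMeasurableSpace State := ⟨fun _ => trivial⟩

instance : DiscreteMeasurableSpace (List Dir) := ⟨fun _ => trivial⟩

instance : Countable State := by
  have h : Function.Injective (fun s : State => (s.A, s.L, s.t)) := by
    rintro ⟨A, L, t⟩ ⟨A', L', t'⟩ h
    simp only [Prod.mk.injEq] at h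
    obtain ⟨h1, h2, h3⟩ := h
    rw [h1, h2, h3]
  exact h.countable

theorem pick_meas (L : List Site) : Measurable (fun u : ℝ => pick L u) := by
  unfold pick
  exact (Nat.measurable_floor.comp (measurable_id.mul_const _)).min measurable_const

/-- the event with the index of the particle given -/
noncomputable def ev (s : State) (l : List Dir) (k : ℕ) : State :=
  if (arrive (s.L.getD k 0) l (s.A, s.L.eraseIdx k)).2 = [] then
    ⟨(arrive (s.L.getD k 0) l (s.A, s.L.eraseIdx k)).1, [0], s.t + 1⟩
  else ⟨(arrive (s.L.getD k 0) l (s.A, s.L.eraseIdx k)).1,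
    (arrive (s.L.getD k 0) l (s.A, s.L.eraseIdx k)).2, s.t⟩

theorem event_eq (s : State) (l : List Dir) (u : ℝ) : event s (l, u) = ev s l (pick s.L u) := rfl

theorem event_meas : Measurable fun p : State × Inst => event p.1 p.2 := by
  refine measurable_from_prod_countable_right fun s => ?_
  refine measurable_from_prod_countable_right fun l => ?_
  have h : (fun u : ℝ => event s (l, u)) = (ev s l) ∘ fun u : ℝ => pick s.L u := by
    funext u
    rfl
  change Measurable (fun u : ℝ => event s (l, u))
  rw [h]
  exact (measurable_of_countable (ev s l)).comp (pick_meas s.L)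

theorem past_mono {Ω : Type u} [MeasurableSpace Ω] (ins : ℕ → Ω → Inst) (n m : ℕ) (h : n ≤ m) :
    past ins n ≤ past ins m := by
  refine iSup₂_le fun j hj => ?_
  exact le_iSup₂ (f := fun j (_ : j ∈ Finset.range m) =>
    MeasurableSpace.comap (ins j) inferInstance) j
      (Finset.mem_range.2 (lt_of_lt_of_le (Finset.mem_range.1 hj) h))

theorem ins_meas {Ω : Type u} [MeasurableSpace Ω] (ins : ℕ → Ω → Inst) (n m : ℕ) (h : n < m) :
    Measurable[past ins m] (ins n) := by
  refine (comap_measurable (ins n)).mono ?_ le_rfl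
  exact le_iSup₂ (f := fun j (_ : j ∈ Finset.range m) =>
    MeasurableSpace.comap (ins j) inferInstance) n (Finset.mem_range.2 h)

theorem X_meas {Ω : Type u} [MeasurableSpace Ω] (ins : ℕ → Ω → Inst) (n : ℕ) :
    Measurable[past ins n] fun ω => X (at' ins ω) n := by
  induction n with
  | zero => exact measurable_const
  | succ n ih =>
    have h1 : Measurable[past ins (n + 1)] fun ω => X (at' ins ω) n :=
      ih.mono (past_mono ins n (n + 1) (Nat.le_succ n)) le_rfl
    have h2 : Measurable[past ins (n + 1)] fun ω => (X (at' ins ω) n, ins n ω) :=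
      h1.prodMk (ins_meas ins n (n + 1) (Nat.lt_succ_self n))
    exact event_meas.comp h2

theorem frz_meas {Ω : Type u} [MeasurableSpace Ω] (ins : ℕ → Ω → Inst) (Fr : Set State)
    (n k : ℕ) : Measurable[past ins (n + k)] fun ω => frz Fr (at' ins ω) n k := by
  classical
  induction k with
  | zero => exact (X_meas ins n).prodMk measurable_const
  | succ k ih =>
    have h0 : Measurable[past ins (n + (k + 1))] fun ω => frz Fr (at' ins ω) n k :=
      ih.mono (past_mono ins (n + k) (n + (k + 1)) (by omega)) le_rfl
    have h1 : Measurable[past ins (n + (k + 1))] fun ω => (frz Fr (at' ins ω) n k).1 :=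
      measurable_fst.comp h0
    have h2 : Measurable[past ins (n + (k + 1))]
        fun ω => ((frz Fr (at' ins ω) n k).1, ins (n + k) ω) :=
      h1.prodMk (ins_meas ins (n + k) (n + (k + 1)) (by omega))
    have h3 : Measurable[past ins (n + (k + 1))]
        fun ω => (event (frz Fr (at' ins ω) n k).1 (ins (n + k) ω), n + k + 1) :=
      (event_meas.comp h2).prodMk measurable_const
    have h4 : MeasurableSet[past ins (n + (k + 1))] {ω | (frz Fr (at' ins ω) n k).1 ∈ Fr} :=
      h1 (show MeasurableSet Fr from trivial)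
    have h6 : (fun ω => frz Fr (at' ins ω) n (k + 1)) = fun ω =>
        @ite _ ((frz Fr (at' ins ω) n k).1 ∈ Fr) (Classical.propDecidable _)
          (frz Fr (at' ins ω) n k)
          (event (frz Fr (at' ins ω) n k).1 (ins (n + k) ω), n + k + 1) := by
      funext ω
      rw [frz]
    rw [h6]
    exact Measurable.ite h4 h0 h3

theorem t_MEAS : S_MEAS.{u} := by
  refine ⟨inferInstance, event_meas, fun Ω _ P ν ins hD => ⟨X_meas ins, fun n => ?_,
    past_mono ins, frz_meas ins⟩⟩
  exact iSup₂_le fun j _ => (hD.meas j).comap_le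

theorem t_AGG : S_AGG.{u} := by
  intro Ω _ P ν ins hD t B
  have hX : ∀ n, Measurable[⨆ n, past ins n] fun ω => X (at' ins ω) n := fun n =>
    (X_meas ins n).mono (le_iSup (fun n => past ins n) n) le_rfl
  have hs : ∀ n, MeasurableSet[⨆ n, past ins n] {ω | t ≤ (X (at' ins ω) n).t} := fun n =>
    hX n (show MeasurableSet {s : State | t ≤ s.t} from trivial)
  have hB : ∀ n, MeasurableSet[⨆ n, past ins n] {ω | (X (at' ins ω) n).A ∈ B} := fun n =>
    hX n (show MeasurableSet {s : State | s.A ∈ B} from trivial)
  have h1 : {ω | agg (at' ins ω) t ∈ B} =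
      (⋃ n, (({ω | t ≤ (X (at' ins ω) n).t} ∩
        ⋂ k ∈ Finset.range n, {ω | t ≤ (X (at' ins ω) k).t}ᶜ) ∩ {ω | (X (at' ins ω) n).A ∈ B})) ∪
      ((⋂ k, {ω | t ≤ (X (at' ins ω) k).t}ᶜ) ∩ {ω | (X (at' ins ω) 0).A ∈ B}) := by
    ext ω
    simp only [Set.mem_ofPred_eq, Set.mem_union, Set.mem_iUnion, Set.mem_inter_iff, Set.mem_iInter,
      Set.mem_compl_iff, Finset.mem_range]
    by_cases hex : ∃ n, t ≤ (X (at' ins ω) n).t
    · have hne : {n | t ≤ (X (at' ins ω) n).t}.Nonempty := hex
      constructor
      · intro h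
        left
        exact ⟨T (at' ins ω) t, ⟨Nat.sInf_mem hne, fun k hk h' => absurd
          (Nat.sInf_le (s := {n | t ≤ (X (at' ins ω) n).t}) h') (not_le.2 hk)⟩, h⟩
      · rintro (⟨n, ⟨hn, hk⟩, h⟩ | ⟨h, -⟩)
        · have hT : T (at' ins ω) t = n := by
            apply le_antisymm
            · exact Nat.sInf_le hn
            · by_contra hlt
              push Not at hlt
              exact hk _ hlt (Nat.sInf_mem hne)
          unfold agg
          rw [hT]
          exact h
        · obtain ⟨n, hn⟩ := hex
          exact absurd hn (h n)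
    · have hT : T (at' ins ω) t = 0 := by
        unfold T
        have : {n | t ≤ (X (at' ins ω) n).t} = ∅ := by
          ext n
          simp only [Set.mem_ofPred_eq, Set.mem_empty_iff_false, iff_false]
          exact fun h => hex ⟨n, h⟩
        rw [this, Nat.sInf_empty]
      constructor
      · intro h
        right
        refine ⟨fun k hk => hex ⟨k, hk⟩, ?_⟩
        unfold agg at h
        rw [hT] at h
        exact h
      · rintro (⟨n, ⟨hn, -⟩, -⟩ | ⟨-, h⟩)
        · exact absurd ⟨n, hn⟩ hex
        · unfold agg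
          rw [hT]
          exact h
  rw [h1]
  refine MeasurableSet.union (MeasurableSet.iUnion fun n => ?_) ?_
  · exact ((hs n).inter (Finset.measurableSet_biInter _ fun k _ => (hs k).compl)).inter (hB n)
  · exact (MeasurableSet.iInter fun k => (hs k).compl).inter (hB 0)

end Pool.Agent.K1H8.BI
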